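import Pool.Agent.Helper35_NPX.SNX

/-!
# MP_005a41_gt: dense subgroups of complete metrizable abelian groups

`C_p(X)` is `C(X, ℝ)` with the topology of pointwise convergence; the topology is expressed as in the
frozen statements of the problem (`PCont`).
-/

set_option autoImplicit false

namespace Pool.Agent.Results.MP_005a41_gt.CompactIffUnstable

open Pool.Agent.LSG

/-- The topological sum of `p` copies of `X` (`Fin p` is discrete). -/
abbrev Copies (X : Type) (p : ℕ) : Type := X × Fin p

/-- `X` is neither l-stable nor S-stable, and the sums of `p` and of `q` copies of `X` are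
l-equivalent only if `p = q`. -/
def Rigid (X : Type) [TopologicalSpace X] : Prop :=
  ¬ LStable X ∧ ¬ SStable X ∧ ∀ p q : ℕ, LEq (Copies X p) (Copies X q) → p = q

/-- Let `K` be an infinite complete metrizable abelian topological group. Then `K` is compact iff it
has a dense subgroup which is not l-stable; if `K` is compact it even has a dense subgroup `G` which is neither
l-stable nor S-stable, such that the sums of `p` and of `q` copies of `G` are l-equivalent only if `p = q`. -/
theorem result (K : Type) [CommGroup K] [UniformSpace K] [IsUniformGroup K] [CompleteSpace K]
    [TopologicalSpace.MetrizableSpace K] [Infinite K] :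
    (CompactSpace K ↔ ∃ G : Subgroup K, Dense (G : Set K) ∧ ¬ LStable G) ∧
    (CompactSpace K → ∃ G : Subgroup K, Dense (G : Set K) ∧ Rigid G) :=
  Pool.Agent.NPX.H35.cmp K

end Pool.Agent.Results.MP_005a41_gt.CompactIffUnstable
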