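import Pool.Agent.Helper26_NPY.AsmP

/-!
# MP_005a41_gt: a bounded convex subset of the plane which is not linearly stable
-/

set_option autoImplicit false

namespace Pool.Agent.Results.MP_005a41_gt.ConvexPlaneSet

open Pool.Agent.LSG Pool.Agent.NPY

/-- `X` is unstable (`X × Fin p` is the sum of `p` copies of `X`): for `p < q` there is no continuous linear map of
`C_p(X × Fin p)` onto `C_p(X × Fin q)`, the sums of `p` and of `q` copies of `X` are l-equivalent only for `p = q`,
`X` is not l-stable and not S-stable. -/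
def Unstable (X : Type) [TopologicalSpace X] : Prop :=
  (∀ p q : ℕ, p < q → ¬ Sur (X × Fin p) (X × Fin q)) ∧
    (∀ p q : ℕ, LEq (X × Fin p) (X × Fin q) → p = q) ∧ ¬ LStable X ∧ ¬ SStable X

/-- `Z` is the union of a closed subspace homeomorphic to `G` and of countably many compact sets. -/
def ClosedCopyPlusCompacts (G : AddSubgroup (ℕ → ZMod 2)) (Z : Type) [TopologicalSpace Z] : Prop :=
  ∃ ι : G → Z, Topology.IsClosedEmbedding ι ∧
    ∃ D : ℕ → Set Z, (∀ j, IsCompact (D j)) ∧ ∀ z, z ∈ Set.range ι ∨ ∃ j, z ∈ D j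

/-- There is a dense subgroup `G` of the Cantor group such that every metrizable space which is the union of a
closed copy of `G` and of countably many compact sets is unstable. In particular there is a convex set in the
Euclidean plane, between the open and the closed unit disc, which is unstable. -/
theorem result : ∃ G : AddSubgroup (ℕ → ZMod 2), Dense (G : Set (ℕ → ZMod 2)) ∧
    (∀ (Z : Type) [TopologicalSpace Z] [TopologicalSpace.MetrizableSpace Z],
      ClosedCopyPlusCompacts G Z →
        (∀ p q : ℕ, p < q → ¬ Sur (Z × Fin p) (G × Fin q)) ∧ Unstable Z) ∧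
    ∃ Z : Set (EuclideanSpace ℝ (Fin 2)), Convex ℝ Z ∧
      Metric.ball (0 : EuclideanSpace ℝ (Fin 2)) 1 ⊆ Z ∧
      Z ⊆ Metric.closedBall (0 : EuclideanSpace ℝ (Fin 2)) 1 ∧ Unstable Z := by
  obtain ⟨G, hG, h1, Z, h2, h3, h4, h5⟩ := Pool.Agent.NPY.H26.fdp_
  refine ⟨G, hG, ?_, Z, h2, h3, h4, h5⟩
  rintro Z _ _ ⟨ι, hι, hD⟩
  exact h1 Z ι hι hD

end Pool.Agent.Results.MP_005a41_gt.ConvexPlaneSet
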