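import Pool.Agent.Helper18_SSF.AsmC

/-!
# MP_005a41_gt: metrizable spaces which are piecewise locally products with a self-similar compact space
-/

set_option autoImplicit false

open Topology

namespace Pool.Agent.Results.MP_005a41_gt.LocalProducts

open Pool.Agent.LSG

/-- Every nonempty open subset of `M` contains a copy of `M` (the image of a continuous injection
`M → M`, which is an embedding if `M` is compact and Hausdorff). -/
def SelfSimilar (M : Type) [TopologicalSpace M] : Prop :=
  ∀ U : Set M, IsOpen U → U.Nonempty → ∃ η : M → M, Continuous η ∧ Function.Injective η ∧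
    ∀ u, η u ∈ U

/-- Every point of `Y` has a neighbourhood homeomorphic to `S × M` for some topological space `S`
and some self-similar compact metrizable space `M` with more than one point (`S` and `M` depend on
the point). -/
def LocallyProduct (Y : Type) [TopologicalSpace Y] : Prop :=
  ∀ x : Y, ∃ N ∈ 𝓝 x, ∃ (S M : Type) (_ : TopologicalSpace S) (_ : TopologicalSpace M),
    CompactSpace M ∧ TopologicalSpace.MetrizableSpace M ∧ Nontrivial M ∧ SelfSimilar M ∧
      Nonempty (↥N ≃ₜ S × M)

/-- `X` is the union of a locally finite family of closed subspaces `Y i` each of which is locally a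
product (for example `X` itself is). -/
def PiecewiseProduct (X : Type) [TopologicalSpace X] : Prop :=
  ∃ (I : Type) (Y : I → Set X), (∀ i, IsClosed (Y i)) ∧ LocallyFinite Y ∧
    (⋃ i, Y i) = Set.univ ∧ ∀ i, LocallyProduct ↥(Y i)

/-- Every point of `X` is moved by some continuous action of `ℝ` on `X` (which depends on the
point). -/
def FlowsMove (X : Type) [TopologicalSpace X] : Prop :=
  ∀ x : X, ∃ φ : ℝ → X → X, Continuous (fun q : ℝ × X => φ q.1 q.2) ∧ (∀ y, φ 0 y = y) ∧
    (∀ s t y, φ (s + t) y = φ s (φ t y)) ∧ ∃ t, φ t x ≠ x

/-- `X` is infinite and some compact group acts on `X` continuously and transitively. -/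
def CompactHomogeneous (X : Type) [TopologicalSpace X] : Prop :=
  Infinite X ∧ ∃ (G : Type) (_ : Group G) (_ : TopologicalSpace G) (_ : MulAction G X),
    IsTopologicalGroup G ∧ CompactSpace G ∧ ContinuousSMul G X ∧ ∀ x y : X, ∃ g : G, g • x = y

/-- Let `X` be a metrizable space. If `X` is the union of a locally finite family of closed
subspaces each of which is locally a product with a self-similar compact metrizable space with more
than one point, or if every point of `X` is moved by some continuous action of `ℝ` on `X`, or if `X`
is infinite and a compact group acts transitively on `X`, then `X` is l-stable and S-stable. -/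
theorem result (X : Type) [TopologicalSpace X] [TopologicalSpace.MetrizableSpace X]
    (h : PiecewiseProduct X ∨ FlowsMove X ∨ CompactHomogeneous X) : LStable X ∧ SStable X := by
  rcases h with h | h | ⟨hX, G, hG, tG, aG, h1, h2, h3, h4⟩
  · exact Pool.Agent.SSF.H18.hfc_ X h
  · exact Pool.Agent.SSF.H18.fsm_ X (Or.inr h)
  · exact Pool.Agent.SSF.H18.hgs_ G X h4

end Pool.Agent.Results.MP_005a41_gt.LocalProducts
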