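import Pool.Agent.Helper18_CMG.Asm

/-!
# MP_005a41_gt: metrizable topological groups
-/

set_option autoImplicit false

namespace Pool.Agent.Results.MP_005a41_gt.MetrizableGroups

open Pool.Agent.LSG Pointwise

/-- The group `H` is not precompact: some neighbourhood `U` of 1 does not cover `H` by finitely many
of its left translates. -/
def NotPrecompact (H : Type) [Group H] [TopologicalSpace H] : Prop :=
  ∃ U ∈ nhds (1 : H), ∀ F : Finset H, (⋃ g ∈ F, g • U) ≠ Set.univ

/-- Let `H` be an infinite metrizable topological group which is not precompact or is completely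
metrizable (so the only case left out is that of the proper dense subgroups of compact groups).
Then `H` is l-stable; if `H` is not precompact it is l-equivalent to `H × ℕ` (`ℕ` discrete), and if
`H` is compact it is S-stable. -/
theorem result (H : Type) [Group H] [TopologicalSpace H] [IsTopologicalGroup H]
    [TopologicalSpace.MetrizableSpace H] [Infinite H]
    (h : NotPrecompact H ∨ TopologicalSpace.IsCompletelyMetrizableSpace H) :
    LStable H ∧ (NotPrecompact H → LEq H (H × ℕ)) ∧ (CompactSpace H → SStable H) := by
  refine ⟨?_, fun hp => (Pool.Agent.NPG.H55.np_ H hp).1, fun hc => ?_⟩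
  · rcases h with h | h
    · exact (Pool.Agent.NPG.H55.np_ H h).2
    · exact (Pool.Agent.CMG.H18.fnc_ H).1
  · exact (Pool.Agent.CMG.H18.compact_ H).2

end Pool.Agent.Results.MP_005a41_gt.MetrizableGroups
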